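import Pool.Agent.helper35.DR.SpecC

set_option autoImplicit false

/-! # Project dr, CFA: Clifford's theorem -/

namespace Pool.Agent.DR

open Pool.Agent.helper58.DC Pool.Agent.DI

theorem CFA_val {Γ : Type} [Group Γ] (n : Γ) (ψ : Γ → ℂ) (x : Γ) :
    funMap (MulAut.conj n) ψ x = ψ (n⁻¹ * x * n) := by
  simp [funMap]

theorem CFA_inv {Γ : Type} [Group Γ] [Finite Γ] (K L : Subgroup Γ) (hLn : L ≤ nz K)
    (φ θ : Γ → ℂ) (hφ : ∀ g, ∀ h ∈ L, φ (h * g * h⁻¹) = φ g) (n : Γ) (hn : n ∈ L) :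
    ∑ᶠ x ∈ (K : Set Γ), φ x * θ x⁻¹ =
      ∑ᶠ x ∈ (K : Set Γ), φ x * (funMap (MulAut.conj n) θ) x⁻¹ := by
  have hnz := Subgroup.mem_normalizer_iff.1 (hLn hn)
  refine finsum_mem_eq_of_bijOn (fun y => n * y * n⁻¹) ⟨?_, ?_, ?_⟩ ?_
  · intro y hy
    exact (hnz y).1 hy
  · intro y _ z _ h
    have h' : n * y * n⁻¹ = n * z * n⁻¹ := h
    exact mul_left_cancel (mul_right_cancel h')
  · intro y hy
    refine ⟨n⁻¹ * y * n, ?_, ?_⟩
    · apply (hnz _).2
      have : n * (n⁻¹ * y * n) * n⁻¹ = y := by group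
      rw [this]
      exact hy
    · show n * (n⁻¹ * y * n) * n⁻¹ = y
      group
  · intro y _
    show φ y * θ y⁻¹ = φ (n * y * n⁻¹) * funMap (MulAut.conj n) θ (n * y * n⁻¹)⁻¹
    rw [hφ y n hn, CFA_val]
    congr 2
    group

theorem CFA (hB2 : B2_stmt) (hCRE : CRE_stmt) (hCUQ : CUQ_stmt) (hCCJ : CCJ_stmt) : CFA_stmt := by
  classical
  intro Γ _ _ K L hKL hLn
  have hK := hB2 Γ K
  have hL := hB2 Γ L
  obtain ⟨m, hm1, hm2, hm3⟩ := hCRE Γ L K hKL
  have : Fintype Γ := Fintype.ofFinite Γ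
  set FK := hK.1.toFinset with hFK
  set FL := hL.1.toFinset with hFL
  have memK : ∀ θ, θ ∈ FK ↔ θ ∈ IrrOn K := fun θ => by rw [hFK, Set.Finite.mem_toFinset]
  have memL : ∀ θ, θ ∈ FL ↔ θ ∈ IrrOn L := fun θ => by rw [hFL, Set.Finite.mem_toFinset]
  have sumK : ∀ f : (Γ → ℂ) → ℂ, ∑ᶠ θ ∈ IrrOn K, f θ = ∑ θ ∈ FK, f θ := fun f =>
    finsum_mem_eq_finite_toFinset_sum f hK.1
  have sumL : ∀ f : (Γ → ℂ) → ℂ, ∑ᶠ θ ∈ IrrOn L, f θ = ∑ θ ∈ FL, f θ := fun f =>
    finsum_mem_eq_finite_toFinset_sum f hL.1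
  have hK0 : (Nat.card K : ℂ) ≠ 0 := by
    have : 0 < Nat.card K := Nat.card_pos
    exact_mod_cast this.ne'
  constructor
  · intro φ hφ
    obtain ⟨⟨n₀, hn₀, hφ1, -⟩, hφc, -, -, -⟩ := hL.2 φ hφ
    -- invariance of the multiplicities
    have hinv : ∀ θ ∈ IrrOn K, ∀ n ∈ L, m φ (funMap (MulAut.conj n) θ) = m φ θ := by
      intro θ hθ n hn
      have h1 := hm3 φ hφ θ hθ
      have h2 := hm3 φ hφ _ ((hCCJ Γ K L hLn θ hθ).1 n hn).1
      rw [← CFA_inv K L hLn φ θ hφc n hn, h1] at h2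
      have h3 := mul_left_cancel₀ hK0 h2
      exact_mod_cast h3.symm
    -- a constituent
    obtain ⟨ψ, hψ, hmψ⟩ : ∃ ψ ∈ IrrOn K, m φ ψ ≠ 0 := by
      by_contra hcon
      push Not at hcon
      have h1 := hm1 φ hφ 1 K.one_mem
      rw [sumK, Finset.sum_eq_zero] at h1
      · rw [hφ1] at h1
        have : n₀ = 0 := by exact_mod_cast h1
        omega
      · intro θ hθ
        rw [hcon θ ((memK θ).1 hθ)]
        simp
    refine ⟨ψ, hψ, m φ ψ, Nat.pos_of_ne_zero hmψ, ?_⟩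
    -- all constituents are conjugate
    have hconj : ∀ θ ∈ IrrOn K, m φ θ ≠ 0 → ∃ n ∈ L, θ = funMap (MulAut.conj n) ψ := by
      intro θ hθ hmθ
      by_contra hno
      have key : ∀ x ∈ K, ∑ᶠ θ ∈ IrrOn K, ((∑ φ' ∈ FL, m φ' ψ * m φ' θ : ℕ) : ℂ) * θ x =
          ∑ᶠ θ ∈ IrrOn K, ((Nat.card K : ℂ)⁻¹ *
            ((((L : Set Γ).toFinset.filter fun t => funMap (MulAut.conj t) ψ = θ).card : ℕ) : ℂ)) * θ x := by
        intro x hx
        have h1 := hm2 ψ hψ x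
        rw [sumL] at h1
        have h2 : ∑ φ' ∈ FL, (m φ' ψ : ℂ) * φ' x =
            ∑ᶠ θ ∈ IrrOn K, ((∑ φ' ∈ FL, m φ' ψ * m φ' θ : ℕ) : ℂ) * θ x := by
          rw [sumK]
          have h3 : ∀ φ' ∈ FL, (m φ' ψ : ℂ) * φ' x =
              ∑ θ ∈ FK, (m φ' ψ : ℂ) * ((m φ' θ : ℂ) * θ x) := by
            intro φ' hφ'
            rw [hm1 φ' ((memL φ').1 hφ') x hx, sumK, Finset.mul_sum]
          rw [Finset.sum_congr rfl h3, Finset.sum_comm]
          refine Finset.sum_congr rfl fun θ _ => ?_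
          push_cast
          rw [Finset.sum_mul]
          refine Finset.sum_congr rfl fun φ' _ => ?_
          ring
        rw [← h2, ← h1]
        have h4 : indf L K ψ x = (Nat.card K : ℂ)⁻¹ * ∑ t ∈ (L : Set Γ).toFinset,
            funMap (MulAut.conj t) ψ x := by
          unfold indf
          rw [finsum_mem_eq_toFinset_sum]
          refine congrArg _ (Finset.sum_congr rfl fun t _ => (CFA_val t ψ x).symm)
        rw [h4, sumK]
        have hmaps : ∀ t ∈ (L : Set Γ).toFinset, funMap (MulAut.conj t) ψ ∈ FK := by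
          intro t ht
          rw [Set.mem_toFinset] at ht
          exact (memK _).2 ((hCCJ Γ K L hLn ψ hψ).1 t ht).1
        rw [← Finset.sum_fiberwise_of_maps_to hmaps, Finset.mul_sum]
        refine Finset.sum_congr rfl fun θ _ => ?_
        have h5 : ∑ t ∈ (L : Set Γ).toFinset with funMap (MulAut.conj t) ψ = θ,
            funMap (MulAut.conj t) ψ x =
            ((((L : Set Γ).toFinset.filter fun t => funMap (MulAut.conj t) ψ = θ).card : ℕ) : ℂ) * θ x := by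
          rw [Finset.sum_congr rfl (g := fun _ => θ x), Finset.sum_const, nsmul_eq_mul]
          intro t ht
          rw [(Finset.mem_filter.1 ht).2]
        rw [h5, mul_assoc]
      have h6 := hCUQ Γ K _ _ key θ hθ
      have h7 : ((L : Set Γ).toFinset.filter fun t => funMap (MulAut.conj t) ψ = θ) = ∅ := by
        rw [Finset.filter_eq_empty_iff]
        intro t ht h8
        rw [Set.mem_toFinset] at ht
        exact hno ⟨t, ht, h8.symm⟩
      rw [h7, Finset.card_empty, Nat.cast_zero, mul_zero] at h6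
      have h8 : ∑ φ' ∈ FL, m φ' ψ * m φ' θ = 0 := by exact_mod_cast h6
      have h9 := (Finset.sum_eq_zero_iff.1 h8) φ ((memL φ).2 hφ)
      rcases Nat.mul_eq_zero.1 h9 with h | h
      · exact hmψ h
      · exact hmθ h
    rw [(hCCJ Γ K L hLn ψ hψ).2.1 φ (m φ ψ)]
    intro x hx
    rw [hm1 φ hφ x hx, sumK, sumK]
    refine Finset.sum_congr rfl fun θ hθ => ?_
    congr 1
    by_cases hc : ∃ n ∈ L, θ = funMap (MulAut.conj n) ψ
    · rw [if_pos hc]
      obtain ⟨n, hn, rfl⟩ := hc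
      rw [hinv ψ hψ n hn]
    · rw [if_neg hc]
      by_contra hne
      exact hc (hconj θ ((memK θ).1 hθ) fun h => hne (by rw [h, Nat.cast_zero]))
  · intro φ ψ hψ ψ' hψ' e e' he he' h h'
    rw [(hCCJ Γ K L hLn ψ hψ).2.1 φ e] at h
    rw [(hCCJ Γ K L hLn ψ' hψ').2.1 φ e'] at h'
    have h1 := hCUQ Γ K _ _ (fun x hx => (h x hx).symm.trans (h' x hx)) ψ' hψ'
    have h2 : ∃ n ∈ L, ψ' = funMap (MulAut.conj n) ψ' := by
      refine ⟨1, L.one_mem, ?_⟩
      funext x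
      rw [CFA_val]
      simp
    rw [if_pos h2] at h1
    by_cases hc : ∃ n ∈ L, ψ' = funMap (MulAut.conj n) ψ
    · rw [if_pos hc] at h1
      exact ⟨by exact_mod_cast h1, hc⟩
    · rw [if_neg hc] at h1
      have : e' = 0 := by exact_mod_cast h1.symm
      omega

end Pool.Agent.DR
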